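import Pool.Agent.H27.RigDef
import Pool.Agent.H27.Rig6

open Pool.Agent.H27.Rig Filter Topology

namespace Pool.Agent.Results.MP_e1010f_an.RigidSync

/-- Rigid synchrony conjecture: a rigid synchrony pattern of a hyperbolic periodic orbit is
balanced. The pattern is `c ⋈ d ↔ ρ c d ∧ x_c ≡ x_d`, where `ρ` says which nodes may be compared
(any relation containing equality of node types; `ρ = True` gives `c ⋈ d ↔ x_c ≡ x_d`). -/
theorem result (G : Net) (f : G.P → G.P) (hf : ContDiff ℝ 1 f) (ha : G.Adm f) (x : ℝ → G.P)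
    (T : ℝ) (hx : IsPer f x T) (hh : Hyp f x T) (ρ : Fin G.n → Fin G.n → Prop)
    (hρ : ∀ c d, G.nty c = G.nty d → ρ c d)
    (hr : G.Rigid f x T fun y _ => ∀ c d, (ρ c d ∧ ∀ t, Eqv (x t c) (x t d)) →
      ∀ t, Eqv (y t c) (y t d)) :
    ∀ c d, (ρ c d ∧ ∀ t, Eqv (x t c) (x t d)) → ∃ β, G.IsIso c d β ∧
      ∀ e, ρ (G.tail e.1) (G.tail (β e).1) ∧
        ∀ t, Eqv (x t (G.tail e.1)) (x t (G.tail (β e).1)) := by
  have hT := hx.1
  obtain ⟨r, hr0, hsep⟩ : ∃ r > 0, ∀ a b, ¬ (∀ t, Eqv (x t a) (x t b)) →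
      ∃ t, 3 * r ≤ dist (G.st (x t) a) (G.st (x t) b) := by
    have : ∀ ab : Fin G.n × Fin G.n, ∀ᶠ r in 𝓝[>] (0:ℝ), ¬ (∀ t, Eqv (x t ab.1) (x t ab.2)) →
        ∃ t, 3 * r ≤ dist (G.st (x t) ab.1) (G.st (x t) ab.2) := by
      intro ab
      by_cases h : ∀ t, Eqv (x t ab.1) (x t ab.2)
      · exact Eventually.of_forall fun r h' => absurd h h'
      · obtain ⟨t, ht⟩ := not_forall.1 h
        have hd : 0 < dist (G.st (x t) ab.1) (G.st (x t) ab.2) / 3 := by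
          have := dist_pos.2 (fun h' => ht (G.st_eq_iff.1 h'))
          positivity
        filter_upwards [mem_nhdsWithin_of_mem_nhds (ge_mem_nhds hd)] with r hr _
        exact ⟨t, by linarith⟩
    obtain ⟨r, hr1, hr2⟩ := ((eventually_all.2 this).and self_mem_nhdsWithin).exists
    exact ⟨r, hr2, fun a b => hr1 (a, b)⟩
  obtain ⟨Φ, hΦ⟩ := Net.exists_fam f hf ha x T hx hh _ hr r hr0
  obtain ⟨p, hp, hk⟩ := Φ.key
  obtain ⟨hS, hR, hn⟩ := hΦ p hp
  intro c d hcd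
  obtain ⟨β, hβ, hβ'⟩ := hk c d fun t => by
    have := hR c d hcd (t * Φ.S p)
    simpa only [mul_div_cancel_right₀ _ hS.ne'] using this
  refine ⟨β, hβ, fun e => ⟨hρ _ _ (G.compat _ _ (hβ.2 e).symm).2, ?_⟩⟩
  by_contra hcon
  obtain ⟨t, ht⟩ := hsep _ _ hcon
  have h1 := hn (t / T)
  rw [mul_div_cancel₀ _ hT.ne'] at h1
  have e1 := (G.st_dist _ _ (G.tail e.1)).trans h1
  have e2 := (G.st_dist _ _ (G.tail (β e).1)).trans h1
  have e3 := dist_triangle_left (G.st (x t) (G.tail e.1)) (G.st (x t) (G.tail (β e).1))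
    (G.st (Φ.v p (t / T)) (G.tail e.1))
  rw [G.st_eq_iff.2 (hβ' e (t / T))] at e1 e3
  linarith

end Pool.Agent.Results.MP_e1010f_an.RigidSync
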